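import Pool.Agent.H95.FQ.Rat
import Pool.Agent.H56.FP.Final

/-! # Fractional completion up to `n / 4` and completion of all divisible inflations -/

open Finset

namespace H95FQ

open H56FP

/-- Fractional completion and completion of divisible inflations, from the fractional theorem for
weighted locally balanced tripartite graphs. -/
theorem quarter
    (hFT : ∀ (m : ℕ) (g : M3 ℝ m) (d : ZMod 3 → Fin m → ℝ),
      WSetup g d (1 / 4 * (m : ℝ)) → ∃ w, IsDecomp g w)
    (n k : ℕ) (P : Fin n → Fin n → Option (Fin n))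
    (hr : ∀ (r c₁ c₂ s : Fin n), P r c₁ = some s → P r c₂ = some s → c₁ = c₂)
    (hc : ∀ (c r₁ r₂ s : Fin n), P r₁ c = some s → P r₂ c = some s → r₁ = r₂)
    (hsym : ∀ s : Fin n,
      (Finset.univ.filter (fun p : Fin n × Fin n => P p.1 p.2 = some s)).card ≤ k)
    (hrow : ∀ r : Fin n, (Finset.univ.filter (fun c : Fin n => P r c ≠ none)).card ≤ k)
    (hcol : ∀ c : Fin n, (Finset.univ.filter (fun r : Fin n => P r c ≠ none)).card ≤ k)
    (hk : 4 * k ≤ n) :
    (∃ f : Fin n → Fin n → Fin n → ℚ, (∀ r c s, 0 ≤ f r c s) ∧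
      (∀ r c, ∑ s, f r c s = 1) ∧ (∀ c s, ∑ r, f r c s = 1) ∧ (∀ r s, ∑ c, f r c s = 1) ∧
      ∀ r c s, P r c = some s → f r c s = 1) ∧
    ∃ q : ℕ, 0 < q ∧ ∀ N : ℕ, 0 < N → q ∣ N →
      ∀ P' : Fin (n * N) → Fin (n * N) → Option (Fin (n * N)),
      (∀ (r c₁ c₂ s : Fin (n * N)), P' r c₁ = some s → P' r c₂ = some s → c₁ = c₂) →
      (∀ (c r₁ r₂ s : Fin (n * N)), P' r₁ c = some s → P' r₂ c = some s → r₁ = r₂) →
      (∀ a b : Fin (n * N), (P' a b).map Fin.divNat = P a.divNat b.divNat) →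
      ∃ L : Fin (n * N) → Fin (n * N) → Fin (n * N),
        (∀ r, Function.Injective (L r)) ∧ (∀ c, Function.Injective (fun r => L r c)) ∧
        ∀ r c s, P' r c = some s → L r c = s := by
  obtain ⟨f, hf⟩ := frac_quarter hFT n k P hr hc hsym hrow hcol hk
  exact ⟨⟨f, hf⟩, H56FP.blowup P f hf⟩

end H95FQ
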