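import Pool.Agent.H56.FP.WHom
import Pool.Agent.H56.FP.Pls
import Pool.Agent.H6.Abund.Farkas

/-! # From real to rational fractional triangle decompositions, and fractional completions -/

open Finset

namespace H95FQ

open H56FP Pool.Agent.H6.Abund.FarkasAux

variable {n : ℕ}

/-- A rational weighted tripartite graph with a real fractional triangle decomposition has a
rational one. -/
theorem rat_of_real {g : M3 ℚ n} (h : ∃ w, IsDecomp (castM g) w) : ∃ w, IsDecomp g w := by
  classical
  obtain ⟨w, hw0, hw1, hw2, hw3⟩ := h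
  let v : Fin n × Fin n × Fin n → ((Fin n × Fin n) ⊕ (Fin n × Fin n) ⊕ (Fin n × Fin n) → ℚ) :=
    fun t => Sum.elim (fun p => if p = (t.1, t.2.1) then 1 else 0)
      (Sum.elim (fun p => if p = (t.2.1, t.2.2) then 1 else 0)
        (fun p => if p = (t.2.2, t.1) then 1 else 0))
  let χ : (Fin n × Fin n) ⊕ (Fin n × Fin n) ⊕ (Fin n × Fin n) → ℚ :=
    Sum.elim (fun p => g 0 p.1 p.2) (Sum.elim (fun p => g 1 p.1 p.2) (fun p => g 2 p.1 p.2))
  rcases farkas_fintype (K := ℚ) v χ with ⟨α, hα, hsum⟩ | ⟨f, hf, hfχ⟩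
  · refine ⟨fun a b c => α (a, b, c), fun a b c => hα _, ?_, ?_, ?_⟩
    · intro a b
      have h := congrFun hsum (Sum.inl (a, b))
      simp only [v, χ, Finset.sum_apply, Pi.smul_apply, Sum.elim_inl, smul_eq_mul,
        Fintype.sum_prod_type, Prod.mk.injEq] at h
      refine Eq.trans ?_ h
      symm
      refine (Finset.sum_eq_single a ?_ ?_).trans ((Finset.sum_eq_single b ?_ ?_).trans ?_)
      · intro a' _ ha'
        refine Finset.sum_eq_zero fun b' _ => Finset.sum_eq_zero fun c _ => ?_
        rw [if_neg fun hh => ha' hh.1.symm, mul_zero]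
      · intro ha'; exact absurd (Finset.mem_univ _) ha'
      · intro b' _ hb'
        refine Finset.sum_eq_zero fun c _ => ?_
        rw [if_neg fun hh => hb' hh.2.symm, mul_zero]
      · intro hb'; exact absurd (Finset.mem_univ _) hb'
      · exact Finset.sum_congr rfl fun c _ => by rw [if_pos ⟨rfl, rfl⟩, mul_one]
    · intro b c
      have h := congrFun hsum (Sum.inr (Sum.inl (b, c)))
      simp only [v, χ, Finset.sum_apply, Pi.smul_apply, Sum.elim_inl, Sum.elim_inr, smul_eq_mul,
        Fintype.sum_prod_type, Prod.mk.injEq] at h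
      refine Eq.trans ?_ h
      refine Finset.sum_congr rfl fun a _ => ?_
      symm
      refine (Finset.sum_eq_single b ?_ ?_).trans ((Finset.sum_eq_single c ?_ ?_).trans ?_)
      · intro b' _ hb'
        refine Finset.sum_eq_zero fun c' _ => ?_
        rw [if_neg fun hh => hb' hh.1.symm, mul_zero]
      · intro hb'; exact absurd (Finset.mem_univ _) hb'
      · intro c' _ hc'
        rw [if_neg fun hh => hc' hh.2.symm, mul_zero]
      · intro hc'; exact absurd (Finset.mem_univ _) hc'
      · rw [if_pos ⟨rfl, rfl⟩, mul_one]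
    · intro c a
      have h := congrFun hsum (Sum.inr (Sum.inr (c, a)))
      simp only [v, χ, Finset.sum_apply, Pi.smul_apply, Sum.elim_inr, smul_eq_mul,
        Fintype.sum_prod_type, Prod.mk.injEq] at h
      refine Eq.trans ?_ h
      symm
      refine (Finset.sum_eq_single a ?_ ?_).trans ?_
      · intro a' _ ha'
        refine Finset.sum_eq_zero fun b' _ => Finset.sum_eq_zero fun c' _ => ?_
        rw [if_neg fun hh => ha' hh.2.symm, mul_zero]
      · intro ha'; exact absurd (Finset.mem_univ _) ha'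
      · refine Finset.sum_congr rfl fun b _ => ?_
        refine (Finset.sum_eq_single c ?_ ?_).trans ?_
        · intro c' _ hc'
          rw [if_neg fun hh => hc' hh.1.symm, mul_zero]
        · intro hc'; exact absurd (Finset.mem_univ _) hc'
        · rw [if_pos ⟨rfl, rfl⟩, mul_one]
  · exfalso
    obtain ⟨y, hy⟩ : ∃ y : (Fin n × Fin n) ⊕ (Fin n × Fin n) ⊕ (Fin n × Fin n) → ℚ,
        ∀ i, y i = f fun j => if i = j then 1 else 0 := ⟨_, fun _ => rfl⟩
    have hfy : ∀ x, f x = ∑ i, x i * y i := by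
      intro x
      rw [LinearMap.pi_apply_eq_sum_univ f x]
      exact Finset.sum_congr rfl fun i _ => by rw [hy, smul_eq_mul]
    have h1 : ∀ a b c, 0 ≤ y (Sum.inl (a, b)) + (y (Sum.inr (Sum.inl (b, c)))
        + y (Sum.inr (Sum.inr (c, a)))) := by
      intro a b c
      have h := hf (a, b, c)
      rw [hfy] at h
      simp only [v, Fintype.sum_sum_type, Sum.elim_inl, Sum.elim_inr, ite_mul, one_mul, zero_mul,
        Finset.sum_ite_eq', Finset.mem_univ, if_true] at h
      exact h
    have h2 : f χ = ∑ a, ∑ b, g 0 a b * y (Sum.inl (a, b))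
        + (∑ b, ∑ c, g 1 b c * y (Sum.inr (Sum.inl (b, c)))
        + ∑ c, ∑ a, g 2 c a * y (Sum.inr (Sum.inr (c, a)))) := by
      rw [hfy]
      simp only [χ, Fintype.sum_sum_type, Sum.elim_inl, Sum.elim_inr, Fintype.sum_prod_type]
    have h3 : (0 : ℝ) ≤ ∑ a, ∑ b, ∑ c, w a b c * ((y (Sum.inl (a, b)) : ℝ)
        + ((y (Sum.inr (Sum.inl (b, c))) : ℝ) + (y (Sum.inr (Sum.inr (c, a))) : ℝ))) := by
      refine Finset.sum_nonneg fun a _ => Finset.sum_nonneg fun b _ =>
        Finset.sum_nonneg fun c _ => mul_nonneg (hw0 a b c) ?_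
      exact_mod_cast h1 a b c
    have h4 : ∑ a, ∑ b, ∑ c, w a b c * ((y (Sum.inl (a, b)) : ℝ)
        + ((y (Sum.inr (Sum.inl (b, c))) : ℝ) + (y (Sum.inr (Sum.inr (c, a))) : ℝ)))
        = ((f χ : ℚ) : ℝ) := by
      rw [h2]
      push_cast
      simp only [mul_add, Finset.sum_add_distrib]
      congr 1
      · refine Finset.sum_congr rfl fun a _ => Finset.sum_congr rfl fun b _ => ?_
        rw [← Finset.sum_mul, hw1]
        rfl
      congr 1
      · rw [Finset.sum_comm]
        refine Finset.sum_congr rfl fun b _ => ?_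
        rw [Finset.sum_comm]
        refine Finset.sum_congr rfl fun c _ => ?_
        rw [← Finset.sum_mul, hw2]
        rfl
      · have e : ∀ a, ∑ b, ∑ c, w a b c * (y (Sum.inr (Sum.inr (c, a))) : ℝ)
            = ∑ c, ∑ b, w a b c * (y (Sum.inr (Sum.inr (c, a))) : ℝ) :=
          fun a => Finset.sum_comm
        rw [Finset.sum_congr rfl fun a _ => e a, Finset.sum_comm]
        refine Finset.sum_congr rfl fun c _ => Finset.sum_congr rfl fun a _ => ?_
        rw [← Finset.sum_mul, hw3]
        rfl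
    rw [h4] at h3
    have h5 : ((f χ : ℚ) : ℝ) < 0 := by exact_mod_cast hfχ
    linarith

/-- A fractional completion from a decomposition of the remaining tripartite graph. -/
theorem frac_of_decomp (P : Fin n → Fin n → Option (Fin n))
    (hr : ∀ (r c₁ c₂ s : Fin n), P r c₁ = some s → P r c₂ = some s → c₁ = c₂)
    (hc : ∀ (c r₁ r₂ s : Fin n), P r₁ c = some s → P r₂ c = some s → r₁ = r₂)
    (h : ∃ w, IsDecomp (gP P) w) : ∃ f, FracCompletion P f := by
  obtain ⟨w, hw0, hw1, hw2, hw3⟩ := h
  have hfw : ∀ r c s, 0 ≤ fP P r c s := by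
    intro r c s; unfold fP; split_ifs <;> norm_num
  refine ⟨fun r c s => w r c s + fP P r c s, ?_, ?_, ?_, ?_, ?_⟩
  · intro r c s
    exact add_nonneg (hw0 _ _ _) (hfw _ _ _)
  · intro r c
    rw [Finset.sum_add_distrib, hw1, fP_s]; ring
  · intro c s
    rw [Finset.sum_add_distrib, hw2, fP_r P hc]; ring
  · intro r s
    rw [Finset.sum_add_distrib, hw3, fP_c P hr]; ring
  · intro r c s h
    have h1 : fP P r c s = 1 := by unfold fP; rw [if_pos h]
    have h2 : ∑ s, w r c s = 0 := by
      rw [hw1, gP0, if_neg (by rw [h]; simp)]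
    have h3 : w r c s = 0 := by
      rw [Finset.sum_eq_zero_iff_of_nonneg fun s _ => hw0 r c s] at h2
      exact h2 s (Finset.mem_univ s)
    simp only [h1, h3, zero_add]

/-- **Fractional completion up to `n / 4`**, from the fractional theorem for weighted locally
balanced tripartite graphs. -/
theorem frac_quarter
    (hFT : ∀ (m : ℕ) (g : M3 ℝ m) (d : ZMod 3 → Fin m → ℝ),
      WSetup g d (1 / 4 * (m : ℝ)) → ∃ w, IsDecomp g w)
    (n k : ℕ) (P : Fin n → Fin n → Option (Fin n))
    (hr : ∀ (r c₁ c₂ s : Fin n), P r c₁ = some s → P r c₂ = some s → c₁ = c₂)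
    (hc : ∀ (c r₁ r₂ s : Fin n), P r₁ c = some s → P r₂ c = some s → r₁ = r₂)
    (h1 : ∀ s : Fin n,
      (Finset.univ.filter (fun p : Fin n × Fin n => P p.1 p.2 = some s)).card ≤ k)
    (h2 : ∀ r : Fin n, (Finset.univ.filter (fun c : Fin n => P r c ≠ none)).card ≤ k)
    (h3 : ∀ c : Fin n, (Finset.univ.filter (fun r : Fin n => P r c ≠ none)).card ≤ k)
    (h : 4 * k ≤ n) : ∃ f, FracCompletion P f := by
  have hdk : ∀ i a, dP P i a ≤ (k : ℚ) := by
    intro i a
    rcases zcases i with rfl | rfl | rfl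
    · rw [dP0_card]; exact_mod_cast h2 a
    · rw [dP1_card]; exact_mod_cast h3 a
    · rw [dP2_card]; exact_mod_cast h1 a
  have W := castM_wsetup (setup_P P hr hc k hdk).toW
  have hk : ((k : ℚ) : ℝ) ≤ 1 / 4 * (n : ℝ) := by
    have h' : (4 : ℝ) * k ≤ n := by exact_mod_cast h
    push_cast
    linarith
  exact frac_of_decomp P hr hc (rat_of_real (hFT n _ _
    { g0 := W.g0, g1 := W.g1, row := W.row, col := W.col,
      dk := fun i a => (W.dk i a).trans hk }))

end H95FQ
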